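import Pool.Agent.T6.H64.MS.Turing
import Pool.Agent.T6.H64.MS.Mem
import Pool.Agent.T6.H64.MS.PolyRed

/-!
# Matrix symmetry under row permutations is NP-complete
-/

set_option autoImplicit false

namespace Pool.Agent.Results.MP_e2e0ab_lc.MSComplete

open Pool.Agent.NPC Pool.Agent.NPC.H64MS Pool.Agent.T6.H64.MS

/-- The matrix symmetry problem MS (given a square 0-1 matrix `A`, is there a permutation matrix
`P` with `(P A)ᵀ = P A`?) is NP-complete under polynomial-time many-one reductions. Graph
isomorphism GI is in NP. Hence MS and GI reduce to each other by many-one (by Turing) reductions if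
and only if GI is NP-hard under many-one (under Turing) reductions. -/
theorem result :
    InNPP MS ∧ NPHardP MS ∧ InNPP GI ∧
    ((Reduces (lang MS) (lang GI) ∧ Reduces (lang GI) (lang MS)) ↔ NPHardP GI) ∧
    ((TuringReduces (lang MS) (lang GI) ∧ TuringReduces (lang GI) (lang MS)) ↔
      ∀ L : Set (List Bool), InNP L → TuringReduces L (lang GI)) := by
  have hard : NPHardP MS := hardI_MS.toNPHardP
  refine ⟨inNPP_MS, hard, inNPP_GI, ⟨fun h L hL => reduces_trans (hard L hL) h.1,
    fun h => ⟨h _ inNPP_MS, hard _ inNPP_GI⟩⟩, ⟨fun h L hL =>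
    TuringReduces.of_reduces (hard L hL) h.1, fun h => ⟨h _ inNPP_MS,
    TuringReduces.of_manyOne (hard _ inNPP_GI)⟩⟩⟩

end Pool.Agent.Results.MP_e2e0ab_lc.MSComplete
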